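import Pool.Agent.Y339.SB.Spec

/-!
# The signless Brouwer inequality for all graphs and all `k > 2n/3`

For every finite simple graph `G` with `n` vertices and `m` edges, and every `k` eigenvalues of
`Q = D + A`, the sum of these eigenvalues is at most
`m + k (k + 1) / 2 - (3 k - 2 n) + 1 / 2`; so the conjectured bound `m + k (k + 1) / 2` holds,
with room to spare, as soon as `3 k ≥ 2 n + 1`.

Proof: the orthogonal complement of the chosen eigenvectors is compared with the complementary
graph.  If `P` is the projection on the span of the chosen eigenvectors and `X = 1 - P`, then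
`∑_{ij ∈ E} (p_i + p_j + 2 P_ij - 1) = ∑_{ij} (p_i + p_j + 2 P_ij - 1)
  + ∑_{ij ∉ E} (x_i + x_j + 2 X_ij - 1)`; the first sum is explicit except for `1ᵀ P 1 ≤ n`, and
the second one is bounded by the quadratic inequality `core` for the projection `X` of trace
`n - k`.
-/

set_option autoImplicit false

open Finset

namespace Pool.Agent.Results.MP_8cfe6a_co.LargeK

open Pool.Agent.Y339.SB

/-- the complementary projection -/
noncomputable def comp {V : Type} [DecidableEq V] (P : V → V → ℝ) (i j : V) : ℝ :=
  (if i = j then 1 else 0) - P i j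

section
variable {V : Type} [Fintype V] [DecidableEq V] {P : V → V → ℝ}

omit [Fintype V] in
theorem comp_symm (hs : ∀ i j, P i j = P j i) (i j : V) : comp P i j = comp P j i := by
  unfold comp
  rw [hs i j]
  by_cases h : i = j
  · rw [if_pos h, if_pos h.symm]
  · rw [if_neg h, if_neg (Ne.symm h)]

theorem comp_idem (hid : ∀ i j, ∑ l, P i l * P l j = P i j) (i j : V) :
    ∑ l, comp P i l * comp P l j = comp P i j := by
  unfold comp
  have h : ∀ l, ((if i = l then (1 : ℝ) else 0) - P i l) * ((if l = j then (1 : ℝ) else 0) - P l j)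
      = (if i = l then ((if l = j then (1 : ℝ) else 0) - P l j) else 0)
        - (if l = j then P i l else 0) + P i l * P l j := by
    intro l
    split_ifs <;> ring
  rw [Finset.sum_congr rfl fun l _ => h l, Finset.sum_add_distrib, Finset.sum_sub_distrib, hid i j,
    Finset.sum_ite_eq, if_pos (Finset.mem_univ i), Finset.sum_ite_eq', if_pos (Finset.mem_univ j)]
  ring

omit [Fintype V] in
theorem comp_diag (i : V) : comp P i i = 1 - P i i := by
  unfold comp; rw [if_pos rfl]

theorem main (hs : ∀ i j, P i j = P j i) (hid : ∀ i j, ∑ l, P i l * P l j = P i j)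
    (G : SimpleGraph V) [DecidableRel G.Adj] :
    ∑ i, ∑ j, (if G.Adj i j then P i i + P j j + 2 * P i j - 1 else 0)
      ≤ (∑ i, P i i) ^ 2 + ∑ i, P i i + 1
        - 2 * (3 * ∑ i, P i i - 2 * (Fintype.card V : ℝ)) := by
  set n : ℝ := (Fintype.card V : ℝ) with hn
  set k : ℝ := ∑ i, P i i with hk
  have hc := core (P := comp P) (comp_symm hs) (comp_idem hid)
    (fun i j => i ≠ j ∧ ¬ G.Adj i j) (fun i h => h.1 rfl)
  have htr : ∑ i, comp P i i = n - k := by
    rw [Finset.sum_congr rfl fun i _ => comp_diag i, Finset.sum_sub_distrib]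
    simp [hn, hk]
  rw [htr] at hc
  have hT : 2 * ∑ i, comp P i i * (1 - comp P i i) - (∑ i, comp P i i * (1 - comp P i i)) ^ 2
      ≤ 1 := by
    nlinarith [sq_nonneg ((∑ i, comp P i i * (1 - comp P i i)) - 1)]
  have hsplit : ∀ i j, (if G.Adj i j then P i i + P j j + 2 * P i j - 1 else 0)
      = (P i i + P j j + 2 * P i j - 1) - (if i = j then 4 * P i i - 1 else 0)
        + (if i ≠ j ∧ ¬ G.Adj i j then comp P i i + comp P j j + 2 * comp P i j - 1 else 0) := by
    intro i j
    by_cases hij : i = j
    · subst hij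
      simp
      ring
    · by_cases ha : G.Adj i j
      · simp [hij, ha]
      · simp only [comp, ha, hij, if_false, if_true, ne_eq, not_false_eq_true, and_self]
        ring
  have hall : ∑ i, ∑ j, (P i i + P j j + 2 * P i j - 1) = 2 * n * k + 2 * ∑ i, ∑ j, P i j - n ^ 2 := by
    simp only [Finset.sum_sub_distrib, Finset.sum_add_distrib, Finset.sum_const, Finset.card_univ,
      nsmul_eq_mul, ← Finset.mul_sum, mul_one]
    rw [← hk, ← hn]
    ring
  have hdiag : ∑ i : V, ∑ j : V, (if i = j then 4 * P i i - 1 else 0) = 4 * k - n := by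
    rw [Finset.sum_congr rfl fun i _ => Finset.sum_ite_eq univ i (fun _ => 4 * P i i - 1)]
    simp only [Finset.mem_univ, if_true, Finset.sum_sub_distrib, ← Finset.mul_sum,
      Finset.sum_const, Finset.card_univ, nsmul_eq_mul, mul_one]
    rw [← hk, ← hn]
  have hquad : ∑ i, ∑ j, P i j ≤ n := by
    have h := quad_le hs hid (fun _ => (1 : ℝ))
    simpa [hn] using h
  have htot : ∑ i, ∑ j, (if G.Adj i j then P i i + P j j + 2 * P i j - 1 else 0)
      = (2 * n * k + 2 * ∑ i, ∑ j, P i j - n ^ 2) - (4 * k - n)
        + ∑ i, ∑ j, (if i ≠ j ∧ ¬ G.Adj i j then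
            comp P i i + comp P j j + 2 * comp P i j - 1 else 0) := by
    rw [← hall, ← hdiag, ← Finset.sum_sub_distrib, ← Finset.sum_add_distrib]
    refine Finset.sum_congr rfl fun i _ => ?_
    rw [← Finset.sum_sub_distrib, ← Finset.sum_add_distrib]
    exact Finset.sum_congr rfl fun j _ => hsplit i j
  rw [htot]
  nlinarith

end

theorem result :
    ∀ (V : Type) [Fintype V] [DecidableEq V] (G : SimpleGraph V) [DecidableRel G.Adj]
      (hQ : (G.degMatrix ℝ + G.adjMatrix ℝ).IsHermitian) (s : Finset V),
      ∑ i ∈ s, hQ.eigenvalues i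
        ≤ (G.edgeFinset.card : ℝ) + (s.card : ℝ) * ((s.card : ℝ) + 1) / 2
          - (3 * (s.card : ℝ) - 2 * (Fintype.card V : ℝ)) + 1 / 2 := by
  intro V _ _ G _ hQ s
  have h1 := two_sum_eig G hQ s
  have h2 := main (P := proj hQ s) (proj_symm hQ s) (proj_idem hQ s) G
  rw [proj_trace hQ s] at h2
  nlinarith

end Pool.Agent.Results.MP_8cfe6a_co.LargeK
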